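import Pool.Agent.Helper93.LP.Main

open Filter Topology
open Pool.Agent.Helper57.PC

namespace Pool.Agent.Results.MP_8958e8_nt.LongPrimeSums

/-- The pair correlation conjecture (Q1) along `l`: for all `0 < α < β`,
`N(T;α,β)/(T log T/2π)` tends to `∫_α^β F` as `T → ∞` along `l`. -/
def PairCorrelation (l : Filter ℝ) : Prop :=
  ∀ α β : ℝ, 0 < α → α < β →
    Tendsto (fun T : ℝ => pairCount T α β / (T * Real.log T / (2 * Real.pi))) l
      (𝓝 (∫ u in α..β, pcDensity u))

/-- The real weight `w` is smooth with compact support contained in `(θ,∞)`. -/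
def IsWeight (θ : ℝ) (w : ℝ → ℝ) : Prop :=
  ContDiff ℝ (⊤ : ℕ∞) w ∧ HasCompactSupport w ∧ tsupport w ⊆ Set.Ioi θ

/-- The Dirichlet polynomial `(1/log T) ∑ Λ(n) n^(-1/2-it) w(log n/log T)`. -/
noncomputable def primeSum (T : ℝ) (w : ℝ → ℝ) (t : ℝ) : ℂ :=
  (∑' n : ℕ, ((ArithmeticFunction.vonMangoldt n : ℝ) : ℂ) *
    (n : ℂ) ^ (-((1 / 2 : ℂ) + (t : ℂ) * Complex.I)) * ((w (Real.log n / Real.log T) : ℝ) : ℂ)) /
      ((Real.log T : ℝ) : ℂ)

/-- Its mean square over `[0,T]`, capped at `B`. -/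
noncomputable def cappedMeanSquare (T : ℝ) (w : ℝ → ℝ) (B : ℝ) : ℝ :=
  (1 / T) * ∫ t in (0:ℝ)..T, min (‖primeSum T w t‖ ^ 2) B

/-- The predicted value `∫_0^∞ min(x,1) w(x)² dx`. -/
noncomputable def predicted (w : ℝ → ℝ) : ℝ := ∫ x in Set.Ioi (0:ℝ), min x 1 * w x ^ 2

open Pool.Agent.Helper93.LP in
lemma capped_eq (T : ℝ) (w : ℝ → ℝ) (B : ℝ) : cappedMeanSquare T w B = MP T (fun x => (w x : ℂ)) B := by
  unfold cappedMeanSquare MP primeSum PP
  simp only [div_eq_inv_mul]

open Pool.Agent.Helper93.LP in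
lemma isWeight_iff {θ : ℝ} (hθ : 0 ≤ θ) (w : ℝ → ℝ) :
    IsWeight θ w ↔ ∃ a b : ℝ, WR w a b ∧ θ < a := by
  constructor
  · rintro ⟨h1, h2, h3⟩
    by_cases hne : (tsupport w).Nonempty
    · obtain ⟨a, ha, hamin⟩ := h2.exists_isMinOn hne continuous_id.continuousOn
      obtain ⟨b, hb, hbmax⟩ := h2.exists_isMaxOn hne continuous_id.continuousOn
      have haθ : θ < a := h3 ha
      refine ⟨a, b, ⟨h1, lt_of_le_of_lt hθ haθ, hbmax ha, fun x hx => ?_⟩, haθ⟩
      have hx' : x ∈ tsupport w := subset_tsupport w hx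
      exact ⟨hamin hx', hbmax hx'⟩
    · rw [Set.not_nonempty_iff_eq_empty] at hne
      refine ⟨θ + 1, θ + 1, ⟨h1, by linarith, le_rfl, fun x hx => ?_⟩, by linarith⟩
      have hx' : x ∈ tsupport w := subset_tsupport w hx
      rw [hne] at hx'
      exact absurd hx' (Set.notMem_empty x)
  · rintro ⟨a, b, ⟨h1, _, _, h4⟩, haθ⟩
    have hs : tsupport w ⊆ Set.Icc a b := closure_minimal (fun x hx => h4 x hx) isClosed_Icc
    exact ⟨h1, HasCompactSupport.intro isCompact_Icc fun x hx => by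
      by_contra h0
      exact hx (h4 x h0), fun x hx => lt_of_lt_of_le haθ (hs hx).1⟩

/-- The pair correlation conjecture is equivalent to an upper bound for prime sums of arbitrary
length, and the Riemann hypothesis is not assumed. Let `l` be a countably generated filter finer than
`atTop` (for instance `atTop` itself, or a sequence of heights tending to infinity) and
`0 ≤ θ < 1`. Then Q1 along `l` holds if and only if, for every smooth weight `w` with compact support in
`(θ,∞)` and every cap `B > 0`, the capped mean square over `[0,T]` of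
`(1/log T) ∑ Λ(n) n^(-1/2-it) w(log n/log T)` is at most `∫_0^∞ min(x,1) w(x)² dx + o(1)`. Moreover Q1 then
gives, for every smooth weight with compact support in `(0,∞)`, the corresponding asymptotic formula
(first `T → ∞`, then `B → ∞`). -/
theorem result (l : Filter ℝ) [l.IsCountablyGenerated] (hl : l ≤ atTop) :
    (∀ θ : ℝ, 0 ≤ θ → θ < 1 → (PairCorrelation l ↔
      ∀ w : ℝ → ℝ, IsWeight θ w → ∀ B : ℝ, 0 < B → ∀ ε : ℝ, 0 < ε →
        ∀ᶠ T : ℝ in l, cappedMeanSquare T w B ≤ predicted w + ε)) ∧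
    (PairCorrelation l → ∀ w : ℝ → ℝ, IsWeight 0 w → ∀ ε : ℝ, 0 < ε → ∃ B₀ : ℝ, ∀ B : ℝ, B₀ ≤ B →
      ∀ᶠ T : ℝ in l, |cappedMeanSquare T w B - predicted w| ≤ ε) := by
  constructor
  · intro θ hθ0 hθ
    refine (Pool.Agent.Helper93.LP.main_up hl hθ).trans ?_
    constructor
    · intro h w hw B hB ε hε
      obtain ⟨a, b, hab, ha⟩ := (isWeight_iff hθ0 w).mp hw
      filter_upwards [h w a b hab ha B hB ε hε] with T hT
      rw [capped_eq]
      exact hT
    · intro h w a b hab ha B hB ε hε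
      filter_upwards [h w ((isWeight_iff hθ0 w).mpr ⟨a, b, hab, ha⟩) B hB ε hε] with T hT
      rw [capped_eq] at hT
      exact hT
  · intro h w hw ε hε
    obtain ⟨a, b, hab, ha⟩ := (isWeight_iff le_rfl w).mp hw
    obtain ⟨B₀, hB⟩ := Pool.Agent.Helper93.LP.main_two hl h hab hε
    refine ⟨B₀, fun B hB' => ?_⟩
    filter_upwards [hB B hB'] with T hT
    rw [capped_eq]
    exact hT

end Pool.Agent.Results.MP_8958e8_nt.LongPrimeSums
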