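import Pool.Agent.Helper93.SR.SuppG

/-!
Strong symplectic Mumford-Tate pairs of weights zero and one normalised by an operator which
differs from a scalar by an operator of small rank.
-/

open Module MTPairs

namespace Pool.Agent.Results.MP_b8862a_ag.SmallTameConductor

/-- Let `R` be a set of pairs `(r, D)` of natural numbers with `8 * r < D`. The following are
equivalent: every strong symplectic Mumford-Tate pair of weights `0` and `1` (the group `G` is
generated by the conjugates of one cocharacter under `G` and under a group `Γ` of semilinear
automorphisms normalising `G`), whose standard representation is an orthogonal sum of pairwise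
non isomorphic irreducible summands `W j` stable under `Γ`, and such that for every `j` some
invertible matrix `g` which normalises `G` and preserves `W j` does not act on `W j` as a scalar,
but differs there from a scalar by an operator of rank at most `r`, with `(r, dim (W j))` in `R`,
is the full group of similitudes preserving the summands; `r < d ^ (k - 1)` for all pairs
`(r, d ^ k)` in `R` with `d` even and `k ≥ 3` odd. -/
theorem result {K : Type*} [Field K] [IsAlgClosed K] [CharZero K] (R : Set (ℕ × ℕ))
    (hR : ∀ r D, (r, D) ∈ R → 8 * r < D) :
    (∀ (m ι : Type) [Fintype m] [DecidableEq m] [Fintype ι] [DecidableEq ι]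
      (Γ : Subgroup (Equiv.Perm (m → K))) (J : Matrix m m K)
      (G : Subgroup (Matrix.GeneralLinearGroup m K)) (π : Matrix m m K)
      (W : ι → Submodule K (m → K)), IsStrongMTPair Γ J G π → IsSplit J G W → IsStable Γ W →
      (∀ j, ∃ g r, HasSmallSupport G g (W j) r ∧ (r, finrank K (W j)) ∈ R) → IsFull J G W) ↔
    ∀ r d k, Even d → Odd k → 3 ≤ k → (r, d ^ k) ∈ R → r < d ^ (k - 1) :=
  MTP.supp_criterion R hR

end Pool.Agent.Results.MP_b8862a_ag.SmallTameConductor
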